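import Pool.Agent.W744.GL.Stm
import Pool.Agent.Helper503.Gp.Char1

/-! # Project GL, part INT: characters with a nonzero value at the singular inner function -/

set_option autoImplicit false

open Metric Set Filter Topology Complex
open scoped ComplexConjugate

namespace Pool.Agent.W318.GL.INT

open Pool.Agent.W744.GL
open Pool.Agent.Helper503.Gp (HI IsChar Gl bfac cay PH BlaOn BF mu char_le char_le_one char_le_add
  char_le_mul char_le_smul)

/-- functions agreeing on the lattice -/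
theorem agree (h2 : S_G0) (h3 : S_DIV) {φ : (ℂ → ℂ) → ℂ} (hφ : IsChar φ) {ζ : ℂ} (hζ : 0 < ζ.im)
    (h : φ g0 = Complex.exp (2 * Real.pi * I * ζ)) {F G : ℂ → ℂ} (hF : F ∈ HI) (hG : G ∈ HI)
    (hFG : ∀ n : ℤ, F (cay (lat ζ n)) = G (cay (lat ζ n))) : φ F = φ G := by
  obtain ⟨e1, e2, e3, e4⟩ := hφ
  have hD : F + (-1 : ℂ) • G ∈ HI := char_le_add hF (char_le_smul _ hG)
  obtain ⟨k, hk, hkz⟩ := h3 ζ hζ _ hD (by
    intro n
    change F (cay (lat ζ n)) + (-1 : ℂ) * G (cay (lat ζ n)) = 0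
    rw [hFG n]
    ring)
  have hB : g0 + (-Complex.exp (2 * Real.pi * I * ζ)) • (1 : ℂ → ℂ) ∈ HI :=
    char_le_add h2.1 (char_le_smul _ char_le_one)
  have f1 : φ (F + (-1 : ℂ) • G) = φ F - φ G := by
    rw [(e2 _ hF _ (char_le_smul _ hG)).1, e3 _ _ hG]
    ring
  have f2 : φ (g0 + (-Complex.exp (2 * Real.pi * I * ζ)) • (1 : ℂ → ℂ)) = 0 := by
    rw [(e2 _ h2.1 _ (char_le_smul _ char_le_one)).1, e3 _ _ char_le_one, e1, h]
    ring
  have f3 : φ (F + (-1 : ℂ) • G) =
      φ ((g0 + (-Complex.exp (2 * Real.pi * I * ζ)) • (1 : ℂ → ℂ)) * k) := by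
    apply (e2 _ hD _ (char_le_mul hB hk)).2.2
    intro z hz
    rw [hkz z hz]
    change _ = (g0 z + (-Complex.exp (2 * Real.pi * I * ζ)) * 1) * k z
    ring
  rw [f1, (e2 _ hB _ hk).2.1, f2, zero_mul] at f3
  exact sub_eq_zero.1 f3

theorem main (h1 : S_ULCH) (h2 : S_G0) (h3 : S_DIV) (h4 : S_IF) : S_INT := by
  classical
  intro φ hφ ζ hζ h
  obtain ⟨C, hC0, hC⟩ := h4 ζ hζ
  have ag := @agree h2 h3 φ hφ ζ hζ h
  obtain ⟨e1, e2, e3, e4⟩ := hφ
  have hex : ∀ A : Set ℤ, ∃ F ∈ HI, ∀ n : ℤ, F (cay (lat ζ n)) = if n ∈ A then 1 else 0 := by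
    intro A
    obtain ⟨F, hF, _, hFn⟩ := hC (fun n => if n ∈ A then 1 else 0) (by
      intro n
      by_cases hn : n ∈ A <;> simp [hn])
    exact ⟨F, hF, hFn⟩
  choose F hF hFn using hex
  have huniv : φ (F univ) = 1 := by
    rw [← e1]
    apply ag (hF _) char_le_one
    intro n
    rw [hFn]
    simp
  have hinter : ∀ A B, φ (F (A ∩ B)) = φ (F A) * φ (F B) := by
    intro A B
    rw [← (e2 _ (hF A) _ (hF B)).2.1]
    apply ag (hF _) (char_le_mul (hF A) (hF B))
    intro n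
    change _ = F A (cay (lat ζ n)) * F B (cay (lat ζ n))
    rw [hFn, hFn, hFn]
    by_cases hA : n ∈ A <;> by_cases hB : n ∈ B <;> simp [hA, hB]
  have hcompl : ∀ A, φ (F A) + φ (F Aᶜ) = 1 := by
    intro A
    rw [← (e2 _ (hF A) _ (hF Aᶜ)).1, ← e1]
    apply ag (char_le_add (hF A) (hF Aᶜ)) char_le_one
    intro n
    change F A (cay (lat ζ n)) + F Aᶜ (cay (lat ζ n)) = 1
    rw [hFn, hFn]
    by_cases hA : n ∈ A <;> simp [hA]
  have hidem : ∀ A, φ (F A) = 0 ∨ φ (F A) = 1 := by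
    intro A
    have := hinter A A
    rw [inter_self] at this
    by_cases h0 : φ (F A) = 0
    · exact Or.inl h0
    · right
      have h5 : φ (F A) * 1 = φ (F A) * φ (F A) := by rw [mul_one]; exact this
      exact (mul_left_cancel₀ h0 h5).symm
  let f0 : Filter ℤ :=
    { sets := {A | φ (F A) = 1}
      univ_sets := huniv
      sets_of_superset := by
        intro A B hA hAB
        have h5 := hinter A B
        rw [inter_eq_left.2 hAB] at h5
        simp only [mem_ofPred_eq] at hA ⊢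
        rw [hA, one_mul] at h5
        exact h5.symm
      inter_sets := by
        intro A B hA hB
        simp only [mem_ofPred_eq] at hA hB ⊢
        rw [hinter, hA, hB, one_mul] }
  have hmem : ∀ A : Set ℤ, A ∈ f0 ↔ φ (F A) = 1 := fun A => Iff.rfl
  let U : Ultrafilter ℤ := Ultrafilter.ofComplNotMemIff f0 (by
    intro A
    rw [hmem, hmem]
    have h5 := hcompl A
    constructor
    · intro h6
      rcases hidem A with h7 | h7
      · rw [h7, zero_add] at h5
        exact absurd h5 h6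
      · exact h7
    · intro h6 h7
      rw [h6, h7] at h5
      norm_num at h5)
  have hU : ∀ A : Set ℤ, A ∈ (U : Filter ℤ) ↔ φ (F A) = 1 := fun A => Iff.rfl
  refine ⟨U, ?_⟩
  have hch : ∀ a : ℤ, IsChar (pt ((a : ℂ) + ζ)) := fun a => h1.1 _ (by simpa using hζ)
  obtain ⟨hlc, hlt⟩ := h1.2 ℤ U (fun a : ℤ => pt ((a : ℂ) + ζ)) hch
  funext f
  by_cases hf : f ∈ HI
  · have ht := hlt f
    change φ f = ulim U (fun a : ℤ => pt ((a : ℂ) + ζ)) f
    obtain ⟨l, hl⟩ : ∃ l, l = ulim U (fun a : ℤ => pt ((a : ℂ) + ζ)) f := ⟨_, rfl⟩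
    rw [← hl] at ht ⊢
    have hpt : (fun a : ℤ => pt ((a : ℂ) + ζ) f) = fun a : ℤ => f (cay (lat ζ a)) := by
      funext a
      unfold pt
      rw [if_pos hf]
      rfl
    rw [hpt] at ht
    have key : ∀ ε : ℝ, 0 < ε → ‖φ f - l‖ ≤ ε * C := by
      intro ε hε
      have hA : {n : ℤ | ‖f (cay (lat ζ n)) - l‖ < ε} ∈ (U : Filter ℤ) := by
        have := ht (Metric.ball_mem_nhds l hε)
        refine mem_of_superset this fun n hn => ?_
        have h5 : f (cay (lat ζ n)) ∈ ball l ε := hn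
        rw [mem_ball, dist_eq_norm] at h5
        exact h5
      obtain ⟨A, hAdef⟩ : ∃ A, A = {n : ℤ | ‖f (cay (lat ζ n)) - l‖ < ε} := ⟨_, rfl⟩
      rw [← hAdef] at hA
      have hA1 := (hU A).1 hA
      obtain ⟨H, hH, hHC, hHn⟩ := hC
        (fun n => if n ∈ A then (f (cay (lat ζ n)) - l) / (ε : ℂ) else 0) (by
          intro n
          by_cases hn : n ∈ A
          · simp only [hn, if_true]
            rw [norm_div, Complex.norm_real, Real.norm_of_nonneg hε.le, div_le_one hε]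
            rw [hAdef] at hn
            exact le_of_lt hn
          · simp [hn])
      have hfl : f + (-l) • (1 : ℂ → ℂ) ∈ HI := char_le_add hf (char_le_smul _ char_le_one)
      have g1 : φ (f + (-l) • (1 : ℂ → ℂ)) = φ f - l := by
        rw [(e2 _ hf _ (char_le_smul _ char_le_one)).1, e3 _ _ char_le_one, e1]
        ring
      have g2 : φ ((f + (-l) • (1 : ℂ → ℂ)) * F A) = φ ((ε : ℂ) • H) := by
        apply ag (char_le_mul hfl (hF A)) (char_le_smul _ hH)
        intro n
        change (f (cay (lat ζ n)) + (-l) * 1) * F A (cay (lat ζ n)) =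
          (ε : ℂ) * H (cay (lat ζ n))
        rw [hFn, hHn]
        have hε' : (ε : ℂ) ≠ 0 := by exact_mod_cast hε.ne'
        by_cases hn : n ∈ A
        · simp only [hn, if_true]
          field_simp
          ring
        · simp [hn]
      rw [(e2 _ hfl _ (hF A)).2.1, hA1, mul_one, g1, e3 _ _ hH] at g2
      rw [g2, norm_mul, Complex.norm_real, Real.norm_of_nonneg hε.le]
      exact mul_le_mul_of_nonneg_left (char_le ⟨e1, e2, e3, e4⟩ hH hHC) hε.le
    by_contra hne
    have hpos : 0 < ‖φ f - l‖ := norm_pos_iff.2 (sub_ne_zero.2 hne)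
    have h5 := key (‖φ f - l‖ / (2 * C)) (by positivity)
    have h6 : ‖φ f - l‖ / (2 * C) * C = ‖φ f - l‖ / 2 := by
      field_simp
    rw [h6] at h5
    linarith
  · rw [e4 f hf]
    exact (hlc.2.2.2 f hf).symm

end Pool.Agent.W318.GL.INT
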